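import Pool.Agent.Helper63.GW.StB

/-!
# Project GW (MP_b454d1_nt), module HIW: high frequencies of the smooth prime sum, window functional
-/

set_option autoImplicit false

namespace Pool.Agent.Helper45.GW

open Finset ArithmeticFunction MeasureTheory Filter Topology
open Pool.Agent.Helper48.BK (ex th Sx Apx)
open Pool.Agent.Helper2.MR (ch)
open Pool.Agent.Helper15.AB (IsW)
open Pool.Agent.Helper23.GK
open Pool.Agent.Helper63.GW

namespace HIW

/-! ### the restricted norm -/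

lemma rg_nn (a b : ℝ) (f : ℝ → ℂ) (t : ℝ) : 0 ≤ rg a b f t := by
  unfold rg
  split_ifs
  · exact norm_nonneg _
  · exact le_refl _

lemma rg_le (a b M : ℝ) (f : ℝ → ℂ) (hM : ∀ t, ‖f t‖ ≤ M) (t : ℝ) : rg a b f t ≤ M := by
  unfold rg
  split_ifs
  · exact hM t
  · exact le_trans (norm_nonneg _) (hM t)

lemma rg_zero (a b : ℝ) (f : ℝ → ℂ) (t : ℝ) (h : ¬ (a ≤ |t| ∧ |t| ≤ b)) : rg a b f t = 0 := by
  unfold rg
  rw [if_neg h]

lemma rg_eq (a b : ℝ) (f : ℝ → ℂ) (t : ℝ) (h : a ≤ |t| ∧ |t| ≤ b) : rg a b f t = ‖f t‖ := by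
  unfold rg
  rw [if_pos h]

/-- integrals of functions bounded by `M`, supported in `[-b, b]` -/
lemma int_le (F : ℝ → ℝ) (b M : ℝ) (hb : 0 ≤ b) (h0 : ∀ t, 0 ≤ F t)
    (hM : ∀ t, F t ≤ M) (hs : ∀ t, b < |t| → F t = 0) : ∫ t, F t ≤ 2 * b * M := by
  have hMnn : 0 ≤ M := (h0 0).trans (hM 0)
  have h1 : ∫ t, F t ≤ ∫ t, (Set.Icc (-b) b).indicator (fun _ => M) t := by
    apply integral_mono_of_nonneg
    · exact Eventually.of_forall h0
    · exact (integrable_indicator_iff measurableSet_Icc).2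
        (integrableOn_const (by rw [Real.volume_Icc]; exact ENNReal.ofReal_ne_top))
    · refine Eventually.of_forall fun t => ?_
      show F t ≤ (Set.Icc (-b) b).indicator (fun _ => M) t
      by_cases ht : t ∈ Set.Icc (-b) b
      · rw [Set.indicator_of_mem ht]
        exact hM t
      · rw [Set.indicator_of_notMem ht, hs t]
        by_contra hc
        exact ht (abs_le.1 (not_lt.1 hc))
  refine h1.trans ?_
  rw [integral_indicator measurableSet_Icc, setIntegral_const, smul_eq_mul,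
    Real.volume_real_Icc_of_le (by linarith)]
  apply le_of_eq
  ring

lemma three (hnf : StNfb) (hnq : StNqp) (W a b R₁ R₂ b' M M₁ : ℝ) (f : ℝ → ℂ) (hW : 1 ≤ W)
    (hf : Continuous f) (hM : ∀ t, ‖f t‖ ≤ M) (hR₁ : 0 ≤ R₁) (ha : 2 * R₁ ≤ a) (h12 : R₁ ≤ R₂)
    (hb0 : 0 ≤ b) (hb : b + R₂ ≤ b') (h : NQ W (rg R₁ b' f) ≤ M₁) :
    (∀ ξ : ℝ, |ξ| ≤ R₁ → NQ W (rg a b (fun t => f (t - ξ))) ≤ M₁) ∧
    (∀ ξ : ℝ, R₁ < |ξ| → |ξ| ≤ R₂ → NQ W (rg a b (fun t => f (t - ξ))) ≤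
      2 * (M₁ + 2 * (2 * R₁ * M) ^ 2)) ∧
    (∀ ξ : ℝ, R₂ < |ξ| → NQ W (rg a b (fun t => f (t - ξ))) ≤ 4 * W * (2 * b * M ^ 2)) := by
  obtain ⟨n1, n2, n3, n4, n5, n6, n7, n8⟩ := hnf
  obtain ⟨q1, q2, q3, q4, q5, q6, q7, q8⟩ := hnq W hW
  have hM0 : 0 ≤ M := (norm_nonneg _).trans (hM 0)
  have hfx : ∀ ξ : ℝ, Continuous (fun t => f (t - ξ)) := fun ξ => by fun_prop
  have hN0 : ∀ ξ : ℝ, NF (rg a b (fun t => f (t - ξ))) := fun ξ => n5 a b _ (hfx ξ)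
  have tri1 : ∀ t ξ : ℝ, |t| - |ξ| ≤ |t - ξ| := fun t ξ => abs_sub_abs_le_abs_sub t ξ
  have tri2 : ∀ t ξ : ℝ, |t - ξ| ≤ |t| + |ξ| := fun t ξ => abs_sub t ξ
  refine ⟨?_, ?_, ?_⟩
  · intro ξ hξ
    have h1 : NQ W (rg a b (fun t => f (t - ξ))) ≤ NQ W (fun s => rg R₁ b' f (s - ξ)) := by
      apply q1 _ _ (hN0 ξ) (n8 _ ξ (n5 R₁ b' f hf))
      intro s
      by_cases hs : a ≤ |s| ∧ |s| ≤ b
      · rw [rg_eq a b _ s hs, rg_eq R₁ b' f (s - ξ)]
        refine ⟨?_, ?_⟩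
        · have := tri1 s ξ
          linarith [hs.1]
        · have := tri2 s ξ
          linarith [hs.2]
      · rw [rg_zero a b _ s hs]
        exact rg_nn _ _ _ _
    rw [q6] at h1
    exact h1.trans h
  · intro ξ hξ1 hξ2
    set F : Fin 2 → ℝ → ℝ := ![rg R₁ b' f, rg 0 R₁ f] with hF
    have hFN : ∀ i ∈ (univ : Finset (Fin 2)), NF (F i) := by
      intro i _
      fin_cases i
      · exact n5 R₁ b' f hf
      · exact n5 0 R₁ f hf
    have hFs : NF (fun x => ∑ i ∈ (univ : Finset (Fin 2)), F i x) := n4 (Fin 2) univ F hFN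
    have h1 : NQ W (rg a b (fun t => f (t - ξ))) ≤
        NQ W (fun s => (fun x => ∑ i ∈ (univ : Finset (Fin 2)), F i x) (s - ξ)) := by
      apply q1 _ _ (hN0 ξ) (n8 _ ξ hFs)
      intro s
      show rg a b (fun t => f (t - ξ)) s ≤ ∑ i ∈ (univ : Finset (Fin 2)), F i (s - ξ)
      rw [Fin.sum_univ_two]
      show rg a b (fun t => f (t - ξ)) s ≤ rg R₁ b' f (s - ξ) + rg 0 R₁ f (s - ξ)
      have p1 := rg_nn R₁ b' f (s - ξ)
      have p2 := rg_nn 0 R₁ f (s - ξ)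
      by_cases hs : a ≤ |s| ∧ |s| ≤ b
      · rw [rg_eq a b _ s hs]
        rcases le_total R₁ |s - ξ| with hc | hc
        · have h2 : |s - ξ| ≤ b' := by
            have := tri2 s ξ
            linarith [hs.2]
          rw [rg_eq R₁ b' f (s - ξ) ⟨hc, h2⟩]
          linarith
        · rw [rg_eq 0 R₁ f (s - ξ) ⟨abs_nonneg _, hc⟩]
          linarith
      · rw [rg_zero a b _ s hs]
        linarith
    rw [q6 (fun x => ∑ i ∈ (univ : Finset (Fin 2)), F i x) ξ] at h1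
    have h2 := q2 (Fin 2) univ F hFN
    rw [Fin.sum_univ_two] at h2
    have h3 : NQ W (F 1) ≤ 2 * (2 * R₁ * M) ^ 2 := by
      have h4 := q4 (F 1) (hFN 1 (mem_univ _))
      refine h4.trans ?_
      have h5 : ∫ s, F 1 s ≤ 2 * R₁ * M := by
        apply int_le (F 1) R₁ M hR₁
        · exact fun t => rg_nn 0 R₁ f t
        · exact fun t => rg_le 0 R₁ M f hM t
        · intro t ht
          apply rg_zero 0 R₁ f t
          rintro ⟨-, h6⟩
          linarith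
      have h6 : 0 ≤ ∫ s, F 1 s := integral_nonneg fun t => rg_nn 0 R₁ f t
      have h7 : (∫ s, F 1 s) ^ 2 ≤ (2 * R₁ * M) ^ 2 := pow_le_pow_left₀ h6 h5 2
      linarith
    have h4 : NQ W (F 0) ≤ M₁ := h
    refine (h1.trans h2).trans ?_
    have h5 : ((univ : Finset (Fin 2)).card : ℝ) = 2 := by simp
    rw [h5]
    linarith
  · intro ξ _
    refine (q5 _ (hN0 ξ)).trans ?_
    apply mul_le_mul_of_nonneg_left _ (by linarith)
    apply int_le _ b (M ^ 2) hb0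
    · exact fun t => sq_nonneg _
    · exact fun t => pow_le_pow_left₀ (rg_nn _ _ _ _) (rg_le _ _ _ _ (fun t => hM _) _) 2
    · intro t ht
      rw [rg_zero a b _ t]
      · norm_num
      · rintro ⟨-, h6⟩
        linarith

/-! ### convolutions -/

lemma kint4 (C : ℝ) (hC : 0 ≤ C) : Integrable (fun x : ℝ => C / (1 + x ^ 4)) := by
  have h := (integrable_inv_one_add_sq.const_mul (2 * C))
  refine h.mono' ?_ (Eventually.of_forall fun x => ?_)
  · apply Continuous.aestronglyMeasurable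
    apply Continuous.div (by fun_prop) (by fun_prop)
    intro x
    positivity
  · have h1 : (0 : ℝ) < 1 + x ^ 4 := by positivity
    have h2 : (0 : ℝ) < 1 + x ^ 2 := by positivity
    rw [Real.norm_of_nonneg (by positivity)]
    rw [← div_eq_mul_inv, div_le_div_iff₀ h1 h2]
    have h3 : 1 + x ^ 2 ≤ 2 * (1 + x ^ 4) := by nlinarith [sq_nonneg (x ^ 2 - 1), sq_nonneg (x ^ 2)]
    calc C * (1 + x ^ 2) ≤ C * (2 * (1 + x ^ 4)) := mul_le_mul_of_nonneg_left h3 hC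
      _ = 2 * C * (1 + x ^ 4) := by ring

lemma conv_cont (K f : ℝ → ℂ) (C M : ℝ) (hC : 0 ≤ C) (hK : Continuous K)
    (hKb : ∀ ξ, ‖K ξ‖ ≤ C / (1 + ξ ^ 4)) (hf : Continuous f) (hM : ∀ t, ‖f t‖ ≤ M) :
    Continuous (fun t => ∫ ξ : ℝ, K ξ * f (t - ξ)) := by
  apply continuous_of_dominated (bound := fun ξ => C / (1 + ξ ^ 4) * M)
  · intro t
    apply Continuous.aestronglyMeasurable
    fun_prop
  · intro t
    refine Eventually.of_forall fun ξ => ?_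
    rw [norm_mul]
    exact mul_le_mul (hKb ξ) (hM _) (norm_nonneg _) (by positivity)
  · exact (kint4 C hC).mul_const M
  · refine Eventually.of_forall fun ξ => ?_
    fun_prop

/-! ### coefficients and blocks -/

lemma cf_le (e : Fin 8 → ℕ) : |cf e| ≤ 15 := by
  unfold cf
  refine (Finset.abs_sum_le_sum_abs _ _).trans ?_
  have h1 : ∀ j ∈ Icc (1 : ℕ) 4, |(-1 : ℝ) ^ (j + 1) * (Nat.choose 4 j : ℝ) *
    (if (∀ i : Fin 8, ((j ≤ (i : ℕ) ∧ (i : ℕ) < 4) ∨ 4 + j ≤ (i : ℕ)) → e i = 0) then (1 : ℝ)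
      else 0)| ≤ (Nat.choose 4 j : ℝ) := by
    intro j _
    rw [abs_mul, abs_mul, abs_pow, abs_neg, abs_one, one_pow, one_mul, Nat.abs_cast]
    have h2 : |(if (∀ i : Fin 8, ((j ≤ (i : ℕ) ∧ (i : ℕ) < 4) ∨ 4 + j ≤ (i : ℕ)) → e i = 0)
      then (1 : ℝ) else 0)| ≤ 1 := by
      split_ifs <;> simp
    calc (Nat.choose 4 j : ℝ) * _ ≤ (Nat.choose 4 j : ℝ) * 1 :=
          mul_le_mul_of_nonneg_left h2 (Nat.cast_nonneg _)
      _ = _ := mul_one _
  refine (Finset.sum_le_sum h1).trans ?_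
  have h3 : (∑ j ∈ Icc (1 : ℕ) 4, (Nat.choose 4 j : ℝ)) = ((∑ j ∈ Icc (1 : ℕ) 4, Nat.choose 4 j : ℕ) : ℝ) := by
    push_cast
    rfl
  rw [h3]
  have h4 : (∑ j ∈ Icc (1 : ℕ) 4, Nat.choose 4 j) = 15 := by decide
  rw [h4]
  norm_num

lemma PP8_cont (hb : StBkb) {q : ℕ} (χ : DirichletCharacter ℂ q) (e : Fin 8 → ℕ) :
    Continuous (PP8 χ e) := by
  unfold PP8
  exact continuous_finsetProd _ fun i _ => hb.2.2.1 q χ i (e i)

lemma PP8_bd (hb : StBkb) {q : ℕ} (χ : DirichletCharacter ℂ q) (e : Fin 8 → ℕ) (m : ℝ)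
    (hm : ∀ i, 1 + (e i : ℝ) ≤ m) (t : ℝ) : ‖PP8 χ e t‖ ≤ (4 * m) ^ 8 := by
  unfold PP8
  rw [norm_prod]
  calc ∏ i, ‖bk χ i (e i) t‖ ≤ ∏ _i : Fin 8, (4 * m) := by
        apply Finset.prod_le_prod
        · exact fun i _ => norm_nonneg _
        · intro i _
          have h1 := hb.2.2.2 q χ i (e i) t
          have h2 := hm i
          linarith
    _ = (4 * m) ^ 8 := by simp

lemma ev_log (c r : ℝ) (n : ℕ) (hr : 0 < r) :
    ∀ᶠ X : ℕ in atTop, c * Real.log X ^ n ≤ (X : ℝ) ^ r := by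
  have h := isLittleO_log_rpow_rpow_atTop (n : ℝ) hr
  have h1 : ∀ᶠ x : ℝ in atTop, c * Real.log x ^ n ≤ x ^ r := by
    have h2 := h.bound (c := 1 / (|c| + 1)) (by positivity)
    filter_upwards [h2, eventually_ge_atTop (1 : ℝ)] with x hx hx1
    rw [Real.rpow_natCast] at hx
    have h3 : 0 ≤ Real.log x ^ n := pow_nonneg (Real.log_nonneg hx1) _
    have h4 : 0 ≤ x ^ r := Real.rpow_nonneg (by linarith) _
    rw [Real.norm_of_nonneg h3, Real.norm_of_nonneg h4] at hx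
    have h5 : c * Real.log x ^ n ≤ (|c| + 1) * Real.log x ^ n := by
      gcongr
      have := le_abs_self c
      linarith
    calc c * Real.log x ^ n ≤ (|c| + 1) * Real.log x ^ n := h5
      _ ≤ (|c| + 1) * (1 / (|c| + 1) * x ^ r) := by gcongr
      _ = x ^ r := by field_simp
  exact tendsto_natCast_atTop_atTop.eventually h1

/-- the minimal exponent -/
lemma exists_u (X : ℕ) (hX : 1 ≤ X) (hL : 10 ≤ Real.log X) : ∃ u : ℕ, 3 * X ≤ 2 ^ (4 * u) ∧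
    (2 : ℝ) ^ u ≤ 4 * (X : ℝ) ^ (1 / 4 : ℝ) ∧ (4 * u + 1 : ℝ) ≤ 7 * Real.log X := by
  have hX0 : (0 : ℝ) < X := by exact_mod_cast hX
  refine ⟨Nat.clog 16 (3 * X), ?_, ?_, ?_⟩
  · rw [pow_mul]
    exact Nat.le_pow_clog (by norm_num) _
  all_goals
    set u := Nat.clog 16 (3 * X) with hu
    have h1 : 16 ^ u < 48 * X := by
      have h2 := Nat.pow_pred_clog_lt_self (b := 16) (by norm_num) (x := 3 * X) (by omega)
      rw [← hu] at h2
      have h3 : 0 < u := by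
        rw [hu]
        exact Nat.clog_pos (by norm_num) (by omega)
      have h4 : 16 ^ u = 16 ^ (u - 1) * 16 := by
        rw [← pow_succ]
        congr 1
        omega
      rw [h4]
      rw [Nat.pred_eq_sub_one] at h2
      omega
    have h1' : (16 : ℝ) ^ u ≤ 48 * X := by exact_mod_cast h1.le
  · have h5 : (2 : ℝ) ^ u = ((16 : ℝ) ^ u) ^ (1 / 4 : ℝ) := by
      have : (16 : ℝ) ^ u = ((2 : ℝ) ^ u) ^ 4 := by
        rw [← pow_mul, mul_comm, pow_mul]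
        norm_num
      rw [this, ← Real.rpow_natCast ((2 : ℝ) ^ u) 4, ← Real.rpow_mul (by positivity)]
      norm_num
    rw [h5]
    calc ((16 : ℝ) ^ u) ^ (1 / 4 : ℝ) ≤ (256 * X) ^ (1 / 4 : ℝ) := by
          apply Real.rpow_le_rpow (by positivity) _ (by norm_num)
          linarith
      _ = 4 * (X : ℝ) ^ (1 / 4 : ℝ) := by
          rw [Real.mul_rpow (by norm_num) hX0.le]
          congr 1
          rw [show (256 : ℝ) = 4 ^ (4 : ℝ) by norm_num, ← Real.rpow_mul (by norm_num)]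
          norm_num
  · have h3 : u * Real.log 16 ≤ Real.log 48 + Real.log X := by
      rw [← Real.log_pow, ← Real.log_mul (by norm_num) hX0.ne']
      exact Real.log_le_log (by positivity) h1'
    have h4 : (2 : ℝ) ≤ Real.log 16 := by
      rw [show (16 : ℝ) = 2 ^ 4 by norm_num, Real.log_pow]
      have := Real.log_two_gt_d9
      push_cast
      linarith
    have h5 : Real.log 48 ≤ 6 := by
      have h6 : Real.log 48 ≤ Real.log 64 := Real.log_le_log (by norm_num) (by norm_num)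
      rw [show (64 : ℝ) = 2 ^ 6 by norm_num, Real.log_pow] at h6
      have := Real.log_two_lt_d9
      push_cast at h6
      linarith
    have h6 : (0 : ℝ) ≤ u := Nat.cast_nonneg u
    nlinarith

end HIW

open HIW in
theorem hHIW : StDec4 → StTuw → StBkb → StNfb → StNqp → StNqc → StHiw := by
  intro hd ht hbk hnf hnq hnc w hw A B D ε hε hε2
  obtain ⟨K, C, hC, hKc, hKb, hGA⟩ := hd w hw
  obtain ⟨B1T, X1, htup⟩ := ht (A + 17) B (D + 1) ε hε hε2
  obtain ⟨C₀, hC₀, hconv⟩ := hnc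
  set B2 : ℕ := max B1T (A + 33) with hB2
  -- the constants
  set κ : ℝ := 225 * 7 ^ 16 * (C₀ * C ^ 2) * (1 + 26 * 28 ^ 16) with hκ
  have hκ0 : 0 ≤ κ := by positivity
  obtain ⟨X2, hX2⟩ : ∃ X2 : ℕ, ∀ X : ℕ, X2 ≤ X → X1 ≤ X ∧ 10 ≤ Real.log X ∧
      κ ≤ Real.log X ∧ Real.log X ^ (A + D + 33) ≤ (X : ℝ) ^ (4 / 5 : ℝ) ∧
      Real.log X ^ B2 ≤ (X : ℝ) ^ (1 / 2 : ℝ) ∧ 1 ≤ X := by
    have hlog : Tendsto (fun X : ℕ => Real.log (X : ℝ)) atTop atTop :=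
      Real.tendsto_log_atTop.comp tendsto_natCast_atTop_atTop
    have h := (eventually_ge_atTop X1).and ((hlog.eventually_ge_atTop 10).and
      ((hlog.eventually_ge_atTop κ).and
      ((ev_log 1 (4 / 5) (A + D + 33) (by norm_num)).and
      ((ev_log 1 (1 / 2) B2 (by norm_num)).and (eventually_ge_atTop 1)))))
    obtain ⟨X2, hX2⟩ := eventually_atTop.1 h
    refine ⟨X2, fun X hX => ?_⟩
    obtain ⟨a1, a2, a3, a4, a5, a6⟩ := hX2 X hX
    exact ⟨a1, a2, a3, by linarith [a4], by linarith [a5], a6⟩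
  refine ⟨B2 + 1, X2, fun X hX q _ χ W hq hW1 hW2 => ?_⟩
  obtain ⟨hX1, hL10, hLκ, hLX, hLB2, hX0⟩ := hX2 X hX
  set L : ℝ := Real.log X with hL
  have hL1 : 1 ≤ L := by linarith
  have hL0 : 0 < L := by linarith
  have hXr : (1 : ℝ) ≤ X := by exact_mod_cast hX0
  have hXr0 : (0 : ℝ) < X := by linarith
  have hsq : (X : ℝ) ^ (1 / 2 : ℝ) = √X := (Real.sqrt_eq_rpow _).symm
  rw [hsq] at hLB2
  have hsqX : √(X : ℝ) * √X = X := Real.mul_self_sqrt hXr0.le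
  have hsq1 : 1 ≤ √(X : ℝ) := Real.one_le_sqrt.2 hXr
  obtain ⟨u, hu1, hu2, hu3⟩ := exists_u X hX0 hL10
  set E := (EW u).filter (fun e => X ≤ 16 * 2 ^ (∑ i, e i) ∧ 2 ^ (∑ i, e i) ≤ 1024 * X) with hE
  have hEcard : (E.card : ℝ) ≤ (7 * L) ^ 8 := by
    have h1 : E.card ≤ (4 * u + 1) ^ 8 := by
      calc E.card ≤ (EW u).card := Finset.card_filter_le _ _
        _ ≤ (Fintype.piFinset (fun _ : Fin 8 => range (4 * u + 1))).card :=
            Finset.card_filter_le _ _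
        _ = (4 * u + 1) ^ 8 := by simp
    calc (E.card : ℝ) ≤ ((4 * u + 1 : ℕ) : ℝ) ^ 8 := by exact_mod_cast h1
      _ ≤ (7 * L) ^ 8 := by
          gcongr
          push_cast
          exact hu3
  have hEmem : ∀ e ∈ E, (∀ i, 1 + (e i : ℝ) ≤ 7 * L) ∧ (∀ i : Fin 8, (i : ℕ) < 4 → e i ≤ u) ∧
      X ≤ 16 * 2 ^ (∑ i, e i) ∧ 2 ^ (∑ i, e i) ≤ 1024 * X := by
    intro e he
    rw [hE, Finset.mem_filter, EW, Finset.mem_filter, Fintype.mem_piFinset] at he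
    obtain ⟨⟨h1, h2⟩, h4, h5⟩ := he
    refine ⟨fun i => ?_, h2, h4, h5⟩
    have := h1 i
    rw [Finset.mem_range] at this
    have h6 : e i ≤ 4 * u := by omega
    have h7 : (e i : ℝ) ≤ 4 * u := by exact_mod_cast h6
    linarith
  set M : ℝ := (4 * (7 * L)) ^ 8 with hM
  have hM0 : 0 ≤ M := by positivity
  have hPM : ∀ e ∈ E, ∀ t, ‖PP8 χ e t‖ ≤ M := fun e he t =>
    PP8_bd hbk χ e (7 * L) (hEmem e he).1 t
  set a : ℝ := L ^ (B2 + 1) with ha
  set b : ℝ := √X * L ^ D with hb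
  have hb0 : 0 ≤ b := by positivity
  set R₁ : ℝ := L ^ B2 with hR₁
  have hR₁1 : 1 ≤ R₁ := one_le_pow₀ hL1
  set K' : ℝ → ℂ := fun ξ => K ξ * Complex.exp (((-(ξ * Real.log X) : ℝ) : ℂ) * Complex.I)
    with hK'
  have hK'c : Continuous K' := by
    rw [hK']
    fun_prop
  have hK'b : ∀ ξ, ‖K' ξ‖ ≤ C / (1 + ξ ^ 4) := by
    intro ξ
    rw [hK']
    show ‖K ξ * Complex.exp (((-(ξ * Real.log X) : ℝ) : ℂ) * Complex.I)‖ ≤ _
    rw [norm_mul, Complex.norm_exp_ofReal_mul_I, mul_one]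
    exact hKb ξ
  -- one tuple
  set Q : ℝ := C₀ * C ^ 2 * (1 / L ^ (A + 17) + 2 * (1 / L ^ (A + 17) + 2 * (2 * R₁ * M) ^ 2) /
    R₁ ^ 3 + 4 * W * (2 * b * M ^ 2) / (√X) ^ 3) with hQ
  have hW0 : 0 < W := by linarith
  have hQ0 : 0 ≤ Q := by positivity
  have hone : ∀ e ∈ E, NQ W (rg a b (fun t => ∫ ξ : ℝ, K' ξ * PP8 χ e (t - ξ))) ≤ Q := by
    intro e he
    obtain ⟨g1, g2, g3, g4⟩ := hEmem e he
    have hT : NQ W (rg R₁ (√X * L ^ (D + 1)) (PP8 χ e)) ≤ 1 / L ^ (A + 17) := by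
      apply htup B2 (le_max_left _ _) X hX1 q χ e W hq _ g3 g4 hW1 hW2
      intro i hi
      calc (2 : ℝ) ^ e i ≤ 2 ^ u := pow_le_pow_right₀ (by norm_num) (g2 i hi)
        _ ≤ _ := hu2
    obtain ⟨t1, t2, t3⟩ := three hnf hnq W a b R₁ (√X) (√X * L ^ (D + 1)) M (1 / L ^ (A + 17))
      (PP8 χ e) hW1 (PP8_cont hbk χ e) (hPM e he) (by linarith)
      (by
        rw [ha, pow_succ, hR₁]
        nlinarith [pow_pos hL0 B2])
      hLB2 hb0
      (by
        have h1 : 1 ≤ L ^ D := one_le_pow₀ hL1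
        have h2 : √(X : ℝ) * 1 ≤ √X * L ^ D := by gcongr
        have h3 : √(X : ℝ) * L ^ (D + 1) = √X * L ^ D * L := by rw [pow_succ]; ring
        rw [h3, hb]
        nlinarith [mul_nonneg (Real.sqrt_nonneg (X : ℝ)) (pow_nonneg hL0.le D)])
      hT
    exact hconv W C a b M R₁ (√X) (1 / L ^ (A + 17)) (2 * (1 / L ^ (A + 17) + 2 * (2 * R₁ * M) ^ 2))
      (4 * W * (2 * b * M ^ 2)) K' (PP8 χ e) hW1 hC hK'c hK'b (PP8_cont hbk χ e) (hPM e he)
      hR₁1 hLB2 (by positivity) (by positivity) (by positivity) t1 t2 t3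
  -- all tuples
  obtain ⟨n1, n2, n3, n4, n5, n6, n7, n8⟩ := hnf
  obtain ⟨q1, q2, q3, q4, q5, q6, q7, q8⟩ := hnq W hW1
  have hcc : ∀ e ∈ E, Continuous (fun t => ∫ ξ : ℝ, K' ξ * PP8 χ e (t - ξ)) := fun e he =>
    conv_cont K' (PP8 χ e) C M hC.le hK'c hK'b (PP8_cont hbk χ e) (hPM e he)
  have hGAe : ∀ t, GA w χ X t = ∑ e ∈ E, ((cf e : ℝ) : ℂ) *
      ∫ ξ : ℝ, K' ξ * PP8 χ e (t - ξ) := fun t => hGA q χ X u t hX0 hu1
  have hGAc : Continuous (fun t => GA w χ X t) := by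
    have : (fun t => GA w χ X t) = fun t => ∑ e ∈ E, ((cf e : ℝ) : ℂ) *
      ∫ ξ : ℝ, K' ξ * PP8 χ e (t - ξ) := funext hGAe
    rw [this]
    exact continuous_finsetSum _ fun e he => continuous_const.mul (hcc e he)
  set F : (Fin 8 → ℕ) → ℝ → ℝ := fun e s =>
    15 * rg a b (fun t => ∫ ξ : ℝ, K' ξ * PP8 χ e (t - ξ)) s with hF
  have hFN : ∀ e ∈ E, NF (F e) := fun e he => n3 _ 15 (by norm_num) (n5 a b _ (hcc e he))
  have hstep1 : NQ W (rg a b (fun t => GA w χ X t)) ≤ NQ W (fun x => ∑ e ∈ E, F e x) := by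
    apply q1 _ _ (n5 a b _ hGAc) (n4 _ E F hFN)
    intro s
    by_cases hs : a ≤ |s| ∧ |s| ≤ b
    · rw [rg_eq a b _ s hs]
      show ‖GA w χ X s‖ ≤ ∑ e ∈ E, F e s
      rw [hGAe s]
      refine (norm_sum_le _ _).trans (Finset.sum_le_sum fun e _ => ?_)
      show _ ≤ 15 * rg a b (fun t => ∫ ξ : ℝ, K' ξ * PP8 χ e (t - ξ)) s
      rw [rg_eq a b _ s hs, norm_mul, Complex.norm_real, Real.norm_eq_abs]
      exact mul_le_mul_of_nonneg_right (cf_le e) (norm_nonneg _)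
    · rw [rg_zero a b _ s hs]
      exact Finset.sum_nonneg fun e _ => mul_nonneg (by norm_num) (rg_nn _ _ _ _)
  have hstep2 : NQ W (fun x => ∑ e ∈ E, F e x) ≤ E.card * ∑ e ∈ E, NQ W (F e) :=
    q2 _ E F hFN
  have hstep3 : ∑ e ∈ E, NQ W (F e) ≤ E.card * (225 * Q) := by
    rw [← nsmul_eq_mul, ← Finset.sum_const]
    apply Finset.sum_le_sum
    intro e he
    have h1 : NQ W (F e) = 15 ^ 2 * NQ W (rg a b (fun t => ∫ ξ : ℝ, K' ξ * PP8 χ e (t - ξ))) :=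
      q7 _ 15
    rw [h1]
    have := hone e he
    linarith
  have hcard0 : (0 : ℝ) ≤ E.card := Nat.cast_nonneg _
  -- numerics
  have hLA : 0 < L ^ (A + 17) := by positivity
  have hR₁0 : 0 < R₁ := by linarith
  have hM2 : M ^ 2 = 28 ^ 16 * L ^ 16 := by
    rw [hM]
    ring
  have hmid : 2 * (1 / L ^ (A + 17) + 2 * (2 * R₁ * M) ^ 2) / R₁ ^ 3 ≤
      18 * 28 ^ 16 * (1 / L ^ (A + 17)) := by
    have h1 : R₁ * 1 ≤ R₁ * R₁ := by gcongr
    have h2 : 1 / L ^ (A + 17) ≤ 1 := by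
      rw [div_le_one hLA]
      exact one_le_pow₀ hL1
    have h3 : (2 * R₁ * M) ^ 2 = 4 * 28 ^ 16 * L ^ 16 * R₁ ^ 2 := by
      calc (2 * R₁ * M) ^ 2 = 4 * R₁ ^ 2 * M ^ 2 := by ring
        _ = _ := by rw [hM2]; ring
    have h4 : L ^ 16 * L ^ (A + 17) ≤ R₁ := by
      rw [← pow_add, hR₁]
      apply pow_le_pow_right₀ hL1
      have := le_max_right B1T (A + 33)
      omega
    have h5 : 1 ≤ L ^ 16 := one_le_pow₀ hL1
    have h6 : 1 ≤ R₁ ^ 2 := one_le_pow₀ hR₁1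
    rw [h3, div_le_iff₀ (by positivity)]
    have h7 : 2 * (1 / L ^ (A + 17) + 2 * (4 * 28 ^ 16 * L ^ 16 * R₁ ^ 2)) ≤
        18 * 28 ^ 16 * (L ^ 16 * R₁ ^ 2) := by
      have h8 : (1 : ℝ) ≤ L ^ 16 * R₁ ^ 2 := one_le_mul_of_one_le_of_one_le h5 h6
      have h9 : (2 : ℝ) * 1 ≤ 2 * 28 ^ 16 * (L ^ 16 * R₁ ^ 2) := by
        nlinarith
      nlinarith
    refine h7.trans ?_
    have h8 : L ^ 16 ≤ 1 / L ^ (A + 17) * R₁ := by
      rw [one_div, inv_mul_eq_div, le_div_iff₀ hLA]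
      exact h4
    calc 18 * 28 ^ 16 * (L ^ 16 * R₁ ^ 2) ≤ 18 * 28 ^ 16 * ((1 / L ^ (A + 17) * R₁) * R₁ ^ 2) := by
          gcongr
      _ = _ := by ring
  have hbig : 4 * W * (2 * b * M ^ 2) / (√X) ^ 3 ≤ 8 * 28 ^ 16 * (1 / L ^ (A + 17)) := by
    have hs0 : 0 < √(X : ℝ) := by linarith
    have h1 : 4 * W * (2 * b * M ^ 2) / (√X) ^ 3 = 8 * 28 ^ 16 * (W * L ^ (D + 16) / X) := by
      have h2 : (√(X : ℝ)) ^ 3 = √X * X := by
        calc (√(X : ℝ)) ^ 3 = √X * (√X * √X) := by ring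
          _ = _ := by rw [hsqX]
      rw [h2, hM2, hb, pow_add]
      field_simp
      ring
    rw [h1]
    apply mul_le_mul_of_nonneg_left _ (by positivity)
    rw [div_le_div_iff₀ hXr0 hLA, one_mul]
    have h3 : W ≤ (X : ℝ) ^ (1 / 5 : ℝ) :=
      hW2.trans (Real.rpow_le_rpow_of_exponent_le hXr (by linarith))
    calc W * L ^ (D + 16) * L ^ (A + 17) = W * L ^ (A + D + 33) := by
          rw [mul_assoc, ← pow_add]
          congr 2
          ring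
      _ ≤ (X : ℝ) ^ (1 / 5 : ℝ) * (X : ℝ) ^ (4 / 5 : ℝ) := by gcongr
      _ = X := by
          rw [← Real.rpow_add hXr0]
          norm_num
  have hQle : Q ≤ C₀ * C ^ 2 * ((1 + 26 * 28 ^ 16) * (1 / L ^ (A + 17))) := by
    rw [hQ]
    apply mul_le_mul_of_nonneg_left _ (by positivity)
    linarith
  calc NQ W (rg a b (fun t => GA w χ X t)) ≤ E.card * (E.card * (225 * Q)) :=
        (hstep1.trans hstep2).trans (mul_le_mul_of_nonneg_left hstep3 hcard0)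
    _ ≤ (7 * L) ^ 8 * ((7 * L) ^ 8 * (225 * (C₀ * C ^ 2 * ((1 + 26 * 28 ^ 16) *
        (1 / L ^ (A + 17)))))) := by gcongr
    _ = κ * (L ^ 16 / L ^ (A + 17)) := by
        rw [hκ]
        ring
    _ ≤ L * (L ^ 16 / L ^ (A + 17)) := by
        apply mul_le_mul_of_nonneg_right hLκ
        positivity
    _ = 1 / L ^ A := by
        have h1 : L ^ (A + 17) = L ^ A * (L ^ 16 * L) := by
          rw [← pow_succ, ← pow_add]
        rw [h1]
        field_simp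

end Pool.Agent.Helper45.GW
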