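import Pool.Agent.Helper63.GW.StB
import Pool.Agent.Helper16.GK.M_WIN

/-! # Project GW, module WNW (helper45) -/

set_option autoImplicit false

namespace Pool.Agent.Helper45.GW

open Finset ArithmeticFunction MeasureTheory
open Pool.Agent.Helper23.GK
open Pool.Agent.Helper63.GW
open Pool.Agent.Helper48.BK (th)
open Pool.Agent.Helper2.MR (ch)
open Pool.Agent.Helper15.AB (IsW)
open Pool.Agent.Helper16.GK.WIN

namespace WNW

/-- the mean square of the windows starting in `(Z, Z + H]` -/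
theorem mean_loc (F : ℝ → ℝ) (hF : Continuous F) (hF0 : ∀ u, 0 ≤ F u)
    (hFi : Integrable (fun u => F u ^ 2)) (Z H h : ℕ) (hZ : 1 ≤ Z) (hh : 1 ≤ h) (hhZ : h ≤ Z)
    (hH : H ≤ Z) :
    ∑ N ∈ Ioc Z (Z + H), (∫ v in (Real.log N)..(Real.log (N + h)), F v) ^ 2 ≤
      5 * (h : ℝ) ^ 2 / Z *
        ∫ v in Set.Icc (Real.log Z) (Real.log Z + ((H : ℝ) + h) / Z), F v ^ 2 := by
  have hZ' : (1 : ℝ) ≤ Z := by exact_mod_cast hZ
  have hh' : (1 : ℝ) ≤ h := by exact_mod_cast hh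
  have hH0 : (0 : ℝ) ≤ H := Nat.cast_nonneg H
  have hd0 : (0 : ℝ) < (h : ℝ) / Z := by positivity
  set S : Set ℝ := Set.Icc (Real.log Z) (Real.log Z + ((H : ℝ) + h) / Z) with hS
  set F2 : ℝ → ℝ := S.indicator (fun v => F v ^ 2) with hF2
  have hsub : Ioc Z (Z + H) ⊆ Ioc Z (2 * Z) := by
    intro N hN
    rw [Finset.mem_Ioc] at hN ⊢
    omega
  have h1 : ∀ N ∈ Ioc Z (Z + H), (∫ v in (Real.log N)..(Real.log (N + h)), F v) ^ 2 ≤
      (h : ℝ) / Z * ∫ v in (Real.log N)..(Real.log N + (h : ℝ) / Z), F2 v := by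
    intro N hN
    rw [Finset.mem_Ioc] at hN
    have hnX : (Z : ℝ) < N := by exact_mod_cast hN.1
    have hnX2 : (N : ℝ) ≤ Z + H := by exact_mod_cast hN.2
    have hnpos : (0 : ℝ) < N := by linarith
    have hlog : Real.log (N + h) ≤ Real.log N + (h : ℝ) / Z := by
      have h1 : ((N : ℝ) + h) = N * (1 + h / N) := by field_simp
      rw [h1, Real.log_mul hnpos.ne' (by positivity)]
      have h2 : Real.log (1 + (h : ℝ) / N) ≤ (h : ℝ) / N := by
        have := Real.log_le_sub_one_of_pos (x := 1 + (h : ℝ) / N) (by positivity)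
        linarith
      have h3 : (h : ℝ) / N ≤ (h : ℝ) / Z := by
        apply div_le_div_of_nonneg_left (by linarith) (by linarith) hnX.le
      linarith
    have hlogN : Real.log N ≤ Real.log Z + (H : ℝ) / Z := by
      have h1 : Real.log N ≤ Real.log (Z * (1 + H / Z)) := by
        apply Real.log_le_log hnpos
        have : (Z : ℝ) * (1 + H / Z) = Z + H := by field_simp
        rw [this]; exact hnX2
      rw [Real.log_mul (by positivity) (by positivity)] at h1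
      have h2 : Real.log (1 + (H : ℝ) / Z) ≤ (H : ℝ) / Z := by
        have := Real.log_le_sub_one_of_pos (x := 1 + (H : ℝ) / Z) (by positivity)
        linarith
      linarith
    have hlog0 : Real.log N ≤ Real.log (N + h) := Real.log_le_log hnpos (by linarith)
    have hlogZ : Real.log Z ≤ Real.log N := Real.log_le_log (by linarith) hnX.le
    have hint : (∫ v in (Real.log N)..(Real.log (N + h)), F v) ≤
        ∫ v in (Real.log N)..(Real.log N + (h : ℝ) / Z), F v := by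
      apply intervalIntegral.integral_mono_interval le_rfl hlog0 hlog
      · exact Filter.Eventually.of_forall (fun u => hF0 u)
      · exact hF.intervalIntegrable _ _
    have hint0 : 0 ≤ (∫ v in (Real.log N)..(Real.log (N + h)), F v) :=
      intervalIntegral.integral_nonneg hlog0 (fun u _ => hF0 u)
    have h6 := (pow_le_pow_left₀ hint0 hint 2).trans
      (Pool.Agent.Helper68.MR.WinAux.cs F hF (Real.log N) ((h : ℝ) / Z) hd0)
    refine h6.trans (le_of_eq ?_)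
    congr 1
    apply intervalIntegral.integral_congr
    intro v hv
    rw [Set.uIcc_of_le (by linarith)] at hv
    have hvS : v ∈ S := by
      rw [hS]
      constructor
      · exact hlogZ.trans hv.1
      · refine hv.2.trans ?_
        rw [add_div]
        linarith
    show F v ^ 2 = F2 v
    rw [hF2, Set.indicator_of_mem hvS]
  refine (Finset.sum_le_sum h1).trans ?_
  rw [← Finset.mul_sum]
  have hmS : MeasurableSet S := measurableSet_Icc
  have h2 := Pool.Agent.Helper68.MR.WinAux.sum_win Z h hZ hh hhZ F2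
    (fun u => Set.indicator_nonneg (fun x _ => sq_nonneg _) u) (hFi.indicator hmS)
    (Ioc Z (Z + H)) hsub
  calc (h : ℝ) / Z * ∑ N ∈ Ioc Z (Z + H), ∫ v in (Real.log N)..(Real.log N + (h : ℝ) / Z), F2 v
      ≤ (h : ℝ) / Z * (5 * h * ∫ v, F2 v) := mul_le_mul_of_nonneg_left h2 hd0.le
    _ = _ := by
        rw [hF2, integral_indicator hmS]
        ring

/-- the total for one `Z` -/
theorem total (w : ℝ → ℝ) (hw : IsW w) (M : ℝ) (hM0 : 0 ≤ M)
    (hM : ∀ s t : ℝ, s ≤ t → |w s - w t| ≤ M * (t - s)) (C : ℝ)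
    (hsha : ∀ (g : ℕ → ℝ) (X H : ℕ) (G T x : ℝ), 1 ≤ X → H ≤ X → 1 ≤ T →
      T ≤ X → 0 ≤ G → (∀ n, |g n| ≤ G) → (X : ℝ) / 2 ≤ x → x + H ≤ 3 * X →
      |∑ m ∈ (Icc 1 (3 * X)).filter (fun m : ℕ => x < (m : ℝ) ∧ (m : ℝ) ≤ x + H), g m / m| ≤
        (∫ u in (Real.log x)..(Real.log (x + H)),
          ‖∑ m ∈ Icc 1 (3 * X), ((g m : ℝ) : ℂ) / m *
            ((T * Real.exp (-(T ^ 2 * (u - Real.log m) ^ 2 / 2)) : ℝ) : ℂ)‖) + C * G / T)
    (Ct : ℝ) (hth : ∀ n, 0 ≤ th n ∧ th n ≤ Λ n ∧ th n ≤ Real.log n)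
    (hth2 : ∀ x : ℕ, 3 ≤ x → ∑ n ∈ Ioc 0 x, (Λ n - th n) ≤ Ct * √x * Real.log x ^ 2)
    (hwpl : StWpl)
    (Z H X' q u h : ℕ) (T W δ : ℝ) (hZ : 1 ≤ Z) (hX' : 1 ≤ X') (hh : 1 ≤ h) (hhZ : h ≤ Z)
    (hhX' : h ≤ X') (hXX' : X' ≤ Z) (h3 : 2 * Z + h ≤ 3 * X') (hhH : h ≤ H) (hHZ : H ≤ Z)
    (hlo : Real.exp 0.1 * X' ≤ Z) (hhi : 2 * (Z : ℝ) ≤ Real.exp 0.9 * X')
    (hT1 : 1 ≤ T) (hTX : T ≤ X') (hW1 : 1 ≤ W) (hW2 : W = Z / (2 * H))
    (htow : NQ W (fun t => Real.exp (-(t / T) ^ 2 / 2) * ‖GB w X' q u t‖) ≤ δ) :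
    ∑ N ∈ Ioc Z (Z + H), (∑ m ∈ (Ioc N (N + h)).filter (fun m => m ≡ u [MOD q]), th m -
      (if Nat.Coprime u q then (h : ℝ) / Nat.totient q else 0)) ^ 2 ≤
      6000000 * (80 * (h : ℝ) ^ 2 * H * δ + H * (2 * Z * (C * (Real.log (3 * Z) + 1) / T)) ^ 2 +
        H * ((h : ℝ) ^ 2 / Z * (Real.log (3 * Z) + 1) * (1 + M)) ^ 2) +
      2 * ((h : ℝ) ^ 2 * (Ct * √(3 * Z) * Real.log (3 * Z) ^ 3)) := by
  have hXr : (1 : ℝ) ≤ Z := by exact_mod_cast hZ
  have hXr' : (1 : ℝ) ≤ X' := by exact_mod_cast hX'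
  have hXXr : (X' : ℝ) ≤ Z := by exact_mod_cast hXX'
  have h3r : 2 * (Z : ℝ) + h ≤ 3 * X' := by exact_mod_cast h3
  have hHXr' : (h : ℝ) ≤ X' := by exact_mod_cast hhX'
  have hh1r : (1 : ℝ) ≤ h := by exact_mod_cast hh
  have hhHr : (h : ℝ) ≤ H := by exact_mod_cast hhH
  have hHr1 : (1 : ℝ) ≤ H := by linarith
  have hHZr : (H : ℝ) ≤ Z := by exact_mod_cast hHZ
  have hTpos : 0 < T := by linarith
  set G := Real.log (3 * Z) + 1 with hG
  have hG0 : 0 ≤ G := by
    have : 0 ≤ Real.log (3 * (Z : ℝ)) := Real.log_nonneg (by linarith)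
    linarith
  set F : ℝ → ℝ := fun v => ‖∑ m ∈ Icc 1 (3 * X'), ((gw w X' q u m : ℝ) : ℂ) / m *
            ((T * Real.exp (-(T ^ 2 * (v - Real.log m) ^ 2 / 2)) : ℝ) : ℂ)‖ with hF
  have hFc : Continuous F := by
    apply Continuous.norm
    apply continuous_finsetSum
    intro n _
    apply Continuous.mul continuous_const
    apply Complex.continuous_ofReal.comp
    fun_prop
  obtain ⟨hInt, _⟩ := Pool.Agent.Helper68.MR.gau (Icc 1 (3 * X'))
    (fun m => ((gw w X' q u m : ℝ) : ℂ) / m) T hTpos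
  have hInt' : Integrable (fun v => F v ^ 2) := hInt
  have hmean := mean_loc F hFc (fun v => norm_nonneg _) hInt' Z H h hZ hh hhZ hHZ
  -- the window
  have hwin : ∫ v in Set.Icc (Real.log Z) (Real.log Z + ((H : ℝ) + h) / Z), F v ^ 2 ≤
      4 * H / Z * δ := by
    have hp := hwpl (gw w X' q u) (3 * X') T W (Real.log Z) hW1 hT1
    have hW0 : 0 < W := by linarith
    have hpi : Integrable (fun v => Real.exp (-(W ^ 2 * (v - Real.log Z) ^ 2 / 2)) * F v ^ 2) := by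
      refine hInt'.mono' ?_ (Filter.Eventually.of_forall fun v => ?_)
      · apply Continuous.aestronglyMeasurable
        exact Continuous.mul (by fun_prop) (hFc.pow 2)
      · rw [Real.norm_of_nonneg (mul_nonneg (Real.exp_pos _).le (sq_nonneg _))]
        have : Real.exp (-(W ^ 2 * (v - Real.log Z) ^ 2 / 2)) ≤ 1 := by
          rw [Real.exp_le_one_iff]
          have : 0 ≤ W ^ 2 * (v - Real.log Z) ^ 2 / 2 := by positivity
          linarith
        nlinarith [sq_nonneg (F v)]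
    have hlow : ∀ v ∈ Set.Icc (Real.log Z) (Real.log Z + ((H : ℝ) + h) / Z),
        F v ^ 2 ≤ 2 * (Real.exp (-(W ^ 2 * (v - Real.log Z) ^ 2 / 2)) * F v ^ 2) := by
      intro v hv
      have h1 : 0 ≤ v - Real.log Z := by linarith [hv.1]
      have h2 : v - Real.log Z ≤ ((H : ℝ) + h) / Z := by linarith [hv.2]
      have h4 : W * (v - Real.log Z) ≤ 1 := by
        calc W * (v - Real.log Z) ≤ W * (((H : ℝ) + h) / Z) := mul_le_mul_of_nonneg_left h2 hW0.le
          _ = ((H : ℝ) + h) / (2 * H) := by rw [hW2]; field_simp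
          _ ≤ 1 := by
              rw [div_le_one (by linarith)]
              linarith
      have h4' : 0 ≤ W * (v - Real.log Z) := mul_nonneg hW0.le h1
      have h5 : (W * (v - Real.log Z)) ^ 2 ≤ 1 := by nlinarith
      have h6 : 1 / 2 ≤ Real.exp (-(W ^ 2 * (v - Real.log Z) ^ 2 / 2)) := by
        have := Real.add_one_le_exp (-(W ^ 2 * (v - Real.log Z) ^ 2 / 2))
        rw [mul_pow] at h5
        linarith
      nlinarith [sq_nonneg (F v)]
    have h7 : ∫ v in Set.Icc (Real.log Z) (Real.log Z + ((H : ℝ) + h) / Z), F v ^ 2 ≤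
        2 * ∫ v, Real.exp (-(W ^ 2 * (v - Real.log Z) ^ 2 / 2)) * F v ^ 2 := by
      calc ∫ v in Set.Icc (Real.log Z) (Real.log Z + ((H : ℝ) + h) / Z), F v ^ 2
          ≤ ∫ v in Set.Icc (Real.log Z) (Real.log Z + ((H : ℝ) + h) / Z),
              2 * (Real.exp (-(W ^ 2 * (v - Real.log Z) ^ 2 / 2)) * F v ^ 2) :=
            setIntegral_mono_on hInt'.integrableOn (hpi.const_mul 2).integrableOn
              measurableSet_Icc hlow
        _ ≤ ∫ v, 2 * (Real.exp (-(W ^ 2 * (v - Real.log Z) ^ 2 / 2)) * F v ^ 2) := by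
            apply setIntegral_le_integral (hpi.const_mul 2)
            exact Filter.Eventually.of_forall fun v =>
              mul_nonneg (by norm_num) (mul_nonneg (Real.exp_pos _).le (sq_nonneg _))
        _ = _ := integral_const_mul _ _
    have h8 : ∫ v, Real.exp (-(W ^ 2 * (v - Real.log Z) ^ 2 / 2)) * F v ^ 2 ≤ 1 / W * δ := by
      refine hp.trans ?_
      exact mul_le_mul_of_nonneg_left htow (by positivity)
    have h9 : 2 * (1 / W * δ) = 4 * H / Z * δ := by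
      rw [hW2]; field_simp; ring
    linarith
  have hone : ∀ N ∈ Ioc Z (Z + H), |∑ m ∈ Ioc N (N + h), bb q u m| ≤
      1000 * (2 * Z * ((∫ v in (Real.log N)..(Real.log (N + h)), F v) + C * G / T) +
        (h : ℝ) ^ 2 / Z * G * (1 + M)) := by
    intro N hN
    rw [Finset.mem_Ioc] at hN
    have hNr : (Z : ℝ) < N := by exact_mod_cast hN.1
    have hN22 : N ≤ 2 * Z := by omega
    have hNr2 : (N : ℝ) ≤ 2 * Z := by exact_mod_cast hN22
    apply one_win w hw M hM0 hM Z X' q u h N _ G hZ hX' hN.1 hN22 (by omega)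
    · intro m hm1 hm2
      have hm1' : (1 : ℝ) ≤ m := by exact_mod_cast hm1
      have hm2' : (m : ℝ) ≤ 3 * X' := by exact_mod_cast hm2
      have := Real.log_le_log (by linarith : (0 : ℝ) < m) (by linarith : (m : ℝ) ≤ 3 * Z)
      linarith
    · apply hw.lower
      have hN0 : (0 : ℝ) < N := by linarith
      have hX0' : (0 : ℝ) < X' := by linarith
      constructor
      · rw [Real.le_log_iff_exp_le (by positivity), le_div_iff₀ (by linarith)]
        linarith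
      · rw [Real.log_le_iff_le_exp (by positivity), div_le_iff₀ (by linarith)]
        linarith
    · refine hsha (gw w X' q u) X' h G T N hX' hhX' hT1 hTX hG0 ?_ (by linarith) (by linarith)
      intro n
      refine (gw_le w hw X' q u hX' n).trans ?_
      have := Real.log_le_log (by linarith : (0 : ℝ) < 3 * X') (by linarith : 3 * (X' : ℝ) ≤ 3 * Z)
      linarith
  have hI0 : ∀ N ∈ Ioc Z (Z + H), 0 ≤ ∫ v in (Real.log N)..(Real.log (N + h)), F v := by
    intro N hN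
    rw [Finset.mem_Ioc] at hN
    have hNr : (Z : ℝ) < N := by exact_mod_cast hN.1
    apply intervalIntegral.integral_nonneg
    · apply Real.log_le_log (by linarith)
      linarith
    · intro v _
      exact norm_nonneg _
  set a : ℝ := 2 * Z * (C * G / T) with ha
  set b : ℝ := (h : ℝ) ^ 2 / Z * G * (1 + M) with hb
  have hN2 : ∀ N ∈ Ioc Z (Z + H), (∑ m ∈ (Ioc N (N + h)).filter (fun m => m ≡ u [MOD q]), th m -
      (if Nat.Coprime u q then (h : ℝ) / Nat.totient q else 0)) ^ 2 ≤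
      6000000 * (4 * (Z : ℝ) ^ 2 * (∫ v in (Real.log N)..(Real.log (N + h)), F v) ^ 2 + a ^ 2 +
        b ^ 2) + 2 * (∑ m ∈ (Ioc N (N + h)).filter (fun m => m ≡ u [MOD q]), (Λ m - th m)) ^ 2 := by
    intro N hN
    rw [disc]
    have h4 := hone N hN
    have h5 := hI0 N hN
    set I := ∫ v in (Real.log N)..(Real.log (N + h)), F v with hI
    set S := ∑ m ∈ Ioc N (N + h), bb q u m with hS
    set P := ∑ m ∈ (Ioc N (N + h)).filter (fun m => m ≡ u [MOD q]), (Λ m - th m) with hP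
    have h6 : |S| ≤ 1000 * (2 * Z * I + a + b) := by
      have : 1000 * (2 * Z * (I + C * G / T) + (h : ℝ) ^ 2 / Z * G * (1 + M)) =
          1000 * (2 * Z * I + a + b) := by rw [ha, hb]; ring
      linarith
    have h7 : S ^ 2 ≤ (1000 * (2 * Z * I + a + b)) ^ 2 := by
      rw [← sq_abs S]
      exact pow_le_pow_left₀ (abs_nonneg _) h6 2
    nlinarith [sq_nonneg (S + P), sq_nonneg (2 * Z * I - a), sq_nonneg (2 * Z * I - b),
      sq_nonneg (a - b)]
  refine (Finset.sum_le_sum hN2).trans ?_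
  rw [Finset.sum_add_distrib, ← Finset.mul_sum, ← Finset.mul_sum, Finset.sum_add_distrib,
    Finset.sum_add_distrib, ← Finset.mul_sum, Finset.sum_const, Finset.sum_const, Nat.card_Ioc,
    nsmul_eq_mul, nsmul_eq_mul]
  have hc : ((Z + H - Z : ℕ) : ℝ) = H := by
    have : Z + H - Z = H := by omega
    rw [this]
  rw [hc]
  have h8 := pp_sum Z h q u hZ hhZ Ct hth hth2
  have h8' : ∑ N ∈ Ioc Z (Z + H), (∑ m ∈ (Ioc N (N + h)).filter (fun m => m ≡ u [MOD q]),
      (Λ m - th m)) ^ 2 ≤ (h : ℝ) ^ 2 * (Ct * √(3 * Z) * Real.log (3 * Z) ^ 3) := by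
    refine le_trans ?_ h8
    apply Finset.sum_le_sum_of_subset_of_nonneg
    · intro N hN
      rw [Finset.mem_Ioc] at hN ⊢
      omega
    · intro N _ _
      exact sq_nonneg _
  have h9 : 4 * (Z : ℝ) ^ 2 * ∑ N ∈ Ioc Z (Z + H),
      (∫ v in (Real.log N)..(Real.log (N + h)), F v) ^ 2 ≤ 80 * (h : ℝ) ^ 2 * H * δ := by
    calc 4 * (Z : ℝ) ^ 2 * ∑ N ∈ Ioc Z (Z + H),
          (∫ v in (Real.log N)..(Real.log (N + h)), F v) ^ 2
        ≤ 4 * (Z : ℝ) ^ 2 * (5 * (h : ℝ) ^ 2 / Z * (4 * H / Z * δ)) :=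
          mul_le_mul_of_nonneg_left (hmean.trans
            (mul_le_mul_of_nonneg_left hwin (by positivity))) (by positivity)
      _ = 80 * (h : ℝ) ^ 2 * H * δ := by field_simp; ring
  linarith

/-- final estimate -/
theorem fin_est (A K : ℕ) (C M Ct L L' x x' y H G T δ : ℝ) (hC : 0 < C) (hM : 0 ≤ M) (hCt : 0 < Ct)
    (hL : 10 ≤ L) (hx : 1 ≤ x) (hLx : L ^ (A + 4) ≤ √x) (hLy : √x * L ^ (A + 4) ≤ y)
    (hL' : L / 2 ≤ L') (hx' : x / 4 ≤ x')
    (hH0 : 0 ≤ H) (hH : H ≤ K * √x) (hG0 : 0 ≤ G) (hG : G ≤ 2 * L) (hT : T = √x' * L' ^ (A + 2))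
    (hδ : δ = 1 / L' ^ (A + 1)) (hG3 : Real.log (3 * x) ≤ 2 * L) (hG3' : 0 ≤ Real.log (3 * x))
    (hQ : 6000000 * (80 * K ^ 2 * 2 ^ (A + 1) + C ^ 2 * 4 ^ (A + 5) + 4 * K ^ 4 * (1 + M) ^ 2) +
      32 * K ^ 2 * Ct ≤ L) :
    6000000 * (80 * H ^ 2 * y * δ + y * (2 * x * (C * G / T)) ^ 2 +
        y * (H ^ 2 / x * G * (1 + M)) ^ 2) +
      2 * (H ^ 2 * (Ct * √(3 * x) * Real.log (3 * x) ^ 3)) ≤ y * x / L ^ A := by
  have hL0 : 0 < L := by linarith
  have hL1 : 1 ≤ L := by linarith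
  have hx0 : 0 < x := by linarith
  have hL'0 : 0 < L' := by linarith
  have hs : √x ^ 2 = x := Real.sq_sqrt hx0.le
  have hs1 : 1 ≤ √x := by rw [Real.one_le_sqrt]; exact hx
  have hy0 : 0 ≤ y := le_trans (by positivity) hLy
  have hH2 : H ^ 2 ≤ K ^ 2 * x := by
    have := pow_le_pow_left₀ hH0 hH 2
    rw [mul_pow, hs] at this
    exact this
  have hP : 0 < L ^ (A + 1) := by positivity
  have hK0 : (0 : ℝ) ≤ K := by positivity
  -- the first term
  have t1 : 80 * H ^ 2 * y * δ ≤ (80 * K ^ 2 * 2 ^ (A + 1)) * (y * x / L ^ (A + 1)) := by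
    have h1 : δ ≤ 2 ^ (A + 1) / L ^ (A + 1) := by
      rw [hδ, ← div_pow, show (2 : ℝ) / L = 1 / (L / 2) by field_simp, div_pow, one_pow]
      apply one_div_le_one_div_of_le (by positivity)
      exact pow_le_pow_left₀ (by positivity) hL' _
    have h2 : 0 ≤ δ := by rw [hδ]; positivity
    calc 80 * H ^ 2 * y * δ ≤ 80 * (K ^ 2 * x) * y * (2 ^ (A + 1) / L ^ (A + 1)) := by
          apply mul_le_mul _ h1 h2 (by positivity)
          apply mul_le_mul_of_nonneg_right _ hy0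
          linarith
      _ = _ := by ring
  have t2 : y * (2 * x * (C * G / T)) ^ 2 ≤ (C ^ 2 * 4 ^ (A + 5)) * (y * x / L ^ (A + 1)) := by
    have h1 : √x / 2 * (L / 2) ^ (A + 2) ≤ T := by
      rw [hT]
      apply mul_le_mul _ (pow_le_pow_left₀ (by positivity) hL' _) (by positivity) (by positivity)
      have : √x / 2 = √(x / 4) := by
        rw [Real.sqrt_div hx0.le, show (4 : ℝ) = 2 ^ 2 by norm_num, Real.sqrt_sq (by norm_num)]
      rw [this]
      exact Real.sqrt_le_sqrt hx'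
    have h2 : 0 < √x / 2 * (L / 2) ^ (A + 2) := by positivity
    have h3 : 2 * x * (C * G / T) ≤ C * 2 ^ (A + 5) * √x / L ^ (A + 1) := by
      have h4 : C * G / T ≤ C * (2 * L) / (√x / 2 * (L / 2) ^ (A + 2)) := by
        apply div_le_div₀ (by positivity) (mul_le_mul_of_nonneg_left hG hC.le) h2 h1
      calc 2 * x * (C * G / T) ≤ 2 * x * (C * (2 * L) / (√x / 2 * (L / 2) ^ (A + 2))) :=
            mul_le_mul_of_nonneg_left h4 (by positivity)
        _ = C * 2 ^ (A + 5) * √x / L ^ (A + 1) := by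
            have h5 : 2 * x = 2 * (√x * √x) := by rw [← sq, hs]
            have hsp : √x ≠ 0 := by positivity
            rw [h5, div_pow]
            field_simp
            ring
    have h0 : 0 ≤ 2 * x * (C * G / T) := by
      have : 0 < T := by linarith
      positivity
    calc y * (2 * x * (C * G / T)) ^ 2 ≤ y * (C * 2 ^ (A + 5) * √x / L ^ (A + 1)) ^ 2 :=
          mul_le_mul_of_nonneg_left (pow_le_pow_left₀ h0 h3 2) hy0
      _ = (C ^ 2 * 4 ^ (A + 5)) * (y * x / (L ^ (A + 1) * L ^ (A + 1))) := by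
          rw [div_pow, mul_pow, mul_pow, hs, ← pow_mul, mul_comm (A + 5) 2, pow_mul]
          norm_num
          field_simp
      _ ≤ _ := by
          apply mul_le_mul_of_nonneg_left _ (by positivity)
          apply div_le_div_of_nonneg_left (by positivity) hP
          have : 1 ≤ L ^ (A + 1) := one_le_pow₀ hL1
          nlinarith
  have hxL : y * L ^ 3 ≤ y * x / L ^ (A + 1) := by
    rw [le_div_iff₀ hP]
    have h1 : L ^ 3 * L ^ (A + 1) = L ^ (A + 4) := by rw [← pow_add]; congr 1; omega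
    have h2 : √x ≤ x := by nlinarith
    calc y * L ^ 3 * L ^ (A + 1) = y * L ^ (A + 4) := by rw [mul_assoc, h1]
      _ ≤ y * x := mul_le_mul_of_nonneg_left (hLx.trans h2) hy0
  have t3 : y * (H ^ 2 / x * G * (1 + M)) ^ 2 ≤
      (4 * K ^ 4 * (1 + M) ^ 2) * (y * x / L ^ (A + 1)) := by
    have h1 : H ^ 2 / x * G * (1 + M) ≤ K ^ 2 * (2 * L) * (1 + M) := by
      apply mul_le_mul_of_nonneg_right _ (by linarith)
      apply mul_le_mul _ hG hG0 (by positivity)
      rw [div_le_iff₀ hx0]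
      exact hH2
    have h0 : 0 ≤ H ^ 2 / x * G * (1 + M) := by positivity
    calc y * (H ^ 2 / x * G * (1 + M)) ^ 2 ≤ y * (K ^ 2 * (2 * L) * (1 + M)) ^ 2 :=
          mul_le_mul_of_nonneg_left (pow_le_pow_left₀ h0 h1 2) hy0
      _ = (4 * K ^ 4 * (1 + M) ^ 2) * (y * L ^ 2) := by ring
      _ ≤ _ := by
          apply mul_le_mul_of_nonneg_left _ (by positivity)
          refine le_trans ?_ hxL
          apply mul_le_mul_of_nonneg_left _ hy0
          exact pow_le_pow_right₀ hL1 (by norm_num)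
  have t4 : 2 * (H ^ 2 * (Ct * √(3 * x) * Real.log (3 * x) ^ 3)) ≤
      (32 * K ^ 2 * Ct) * (y * x / L ^ (A + 1)) := by
    have h1 : √(3 * x) ≤ 2 * √x := by
      have : 2 * √x = √(4 * x) := by
        rw [Real.sqrt_mul (by norm_num), show (4 : ℝ) = 2 ^ 2 by norm_num,
          Real.sqrt_sq (by norm_num)]
      rw [this]
      apply Real.sqrt_le_sqrt
      linarith
    have h2 : Real.log (3 * x) ^ 3 ≤ (2 * L) ^ 3 := pow_le_pow_left₀ hG3' hG3 3
    have h3 : √x * L ^ 3 ≤ y / L ^ (A + 1) := by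
      rw [le_div_iff₀ hP]
      have h1 : L ^ 3 * L ^ (A + 1) = L ^ (A + 4) := by rw [← pow_add]; congr 1; omega
      calc √x * L ^ 3 * L ^ (A + 1) = √x * L ^ (A + 4) := by rw [mul_assoc, h1]
        _ ≤ y := hLy
    have h4 : Ct * √(3 * x) * Real.log (3 * x) ^ 3 ≤ Ct * (2 * √x) * (2 * L) ^ 3 := by
      apply mul_le_mul _ h2 (by positivity) (by positivity)
      exact mul_le_mul_of_nonneg_left h1 hCt.le
    calc 2 * (H ^ 2 * (Ct * √(3 * x) * Real.log (3 * x) ^ 3))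
        ≤ 2 * ((K ^ 2 * x) * (Ct * (2 * √x) * (2 * L) ^ 3)) := by
          apply mul_le_mul_of_nonneg_left _ (by norm_num)
          apply mul_le_mul hH2 h4 (by positivity) (by positivity)
      _ = (32 * K ^ 2 * Ct) * (x * (√x * L ^ 3)) := by ring
      _ ≤ (32 * K ^ 2 * Ct) * (x * (y / L ^ (A + 1))) := by
          apply mul_le_mul_of_nonneg_left _ (by positivity)
          exact mul_le_mul_of_nonneg_left h3 hx0.le
      _ = _ := by ring
  have h5 : y * x / L ^ A = L * (y * x / L ^ (A + 1)) := by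
    have h8 : L ^ (A + 1) = L ^ A * L := pow_succ L A
    rw [h8]
    field_simp
  rw [h5]
  have h6 : 0 ≤ y * x / L ^ (A + 1) := by positivity
  have h7 := mul_le_mul_of_nonneg_right hQ h6
  linarith

end WNW

open WNW Filter in
theorem hWNW : StTow → StWpl → StSha → StWnw := by
  intro h1 hwpl h2 A B K ε hε hε2
  obtain ⟨w, hw⟩ := Pool.Agent.Helper15.AB.hWE
  obtain ⟨M, hM0, hM⟩ := Pool.Agent.Helper15.AB.hT1.exists_lip w hw
  obtain ⟨C, hC, hsha⟩ := h2
  obtain ⟨hth, Ct, hCt, hth2⟩ := Pool.Agent.Helper48.BK.hTh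
  obtain ⟨X1, hX1⟩ := h1 w hw (A + 1) (B + 1) (A + 2) (ε / 2) (by linarith) (by linarith)
  have hM' : ∀ s t : ℝ, s ≤ t → |w s - w t| ≤ M * (t - s) := fun s t hst =>
    (hM s t hst).trans (mul_le_mul_of_nonneg_left (cl_lip s t hst) hM0)
  set Q : ℝ := 6000000 * (80 * K ^ 2 * 2 ^ (A + 1) + C ^ 2 * 4 ^ (A + 5) +
    4 * K ^ 4 * (1 + M) ^ 2) + 32 * K ^ 2 * Ct with hQ
  have hlog : Tendsto (fun X : ℕ => Real.log X) atTop atTop :=
    Real.tendsto_log_atTop.comp tendsto_natCast_atTop_atTop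
  have e1 : ∀ᶠ X : ℕ in atTop, 2 * X1 + 1000 ≤ X := eventually_ge_atTop _
  have e2 : ∀ᶠ X : ℕ in atTop, (K : ℝ) * 1000 ≤ √X := by
    have : Tendsto (fun X : ℕ => √(X : ℝ)) atTop atTop :=
      Real.tendsto_sqrt_atTop.comp tendsto_natCast_atTop_atTop
    exact this.eventually_ge_atTop _
  have e3 : ∀ᶠ X : ℕ in atTop, Real.log X ^ (A + 4) ≤ (X : ℝ) ^ (3 / 10 : ℝ) := by
    have h3 : ∀ᶠ x : ℝ in atTop, Real.log x ^ (4 * (A + 4)) ≤ x := by
      have := (Real.isLittleO_pow_log_id_atTop (n := 4 * (A + 4))).bound (c := 1) one_pos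
      filter_upwards [this, eventually_ge_atTop 1] with x hx hx1
      rw [one_mul, id, Real.norm_of_nonneg (pow_nonneg (Real.log_nonneg hx1) _),
        Real.norm_of_nonneg (by linarith : (0 : ℝ) ≤ x)] at hx
      exact hx
    filter_upwards [tendsto_natCast_atTop_atTop.eventually h3, eventually_ge_atTop 1] with X hX hX1
    have hX1' : (1 : ℝ) ≤ X := by exact_mod_cast hX1
    have h4 : Real.log X ^ (A + 4) ≤ (X : ℝ) ^ (1 / 4 : ℝ) := by
      have hl : 0 ≤ Real.log (X : ℝ) ^ (A + 4) := pow_nonneg (Real.log_nonneg hX1') _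
      have h5 : (Real.log (X : ℝ) ^ (A + 4)) = ((Real.log (X : ℝ) ^ (A + 4)) ^ 4) ^ (1 / 4 : ℝ) := by
        rw [← Real.rpow_natCast (Real.log (X : ℝ) ^ (A + 4)) 4, ← Real.rpow_mul hl]
        norm_num
      rw [h5]
      apply Real.rpow_le_rpow (by positivity) _ (by norm_num)
      rw [← pow_mul, mul_comm (A + 4) 4]
      exact hX
    exact h4.trans (Real.rpow_le_rpow_of_exponent_le hX1' (by norm_num))
  have e4 : ∀ᶠ X : ℕ in atTop, 10 ≤ Real.log X := hlog.eventually_ge_atTop _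
  have e5 : ∀ᶠ X : ℕ in atTop, Q ≤ Real.log X := hlog.eventually_ge_atTop _
  have e6 : ∀ᶠ X : ℕ in atTop, (2 : ℝ) ^ (B + 1) ≤ Real.log X := hlog.eventually_ge_atTop _
  have e7 : ∀ᶠ X : ℕ in atTop, (K : ℝ) ≤ Real.log X := hlog.eventually_ge_atTop _
  obtain ⟨X0, hX0⟩ := eventually_atTop.1 (e1.and (e2.and (e3.and (e4.and (e5.and (e6.and e7))))))
  refine ⟨X0, fun Z H q u h hZ hHlow hHZ2 hq hqB hhK => ?_⟩
  obtain ⟨f1, f2, f3, f4, f5, f6, f7⟩ := hX0 Z hZ
  have hXr : (1000 : ℝ) ≤ Z := by exact_mod_cast (by omega : 1000 ≤ Z)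
  rcases Nat.eq_zero_or_pos h with hh0 | hh1
  · subst hh0
    have : ∀ N ∈ Ioc Z (Z + H), (∑ m ∈ (Ioc N (N + 0)).filter (fun m => m ≡ u [MOD q]), th m -
      (if Nat.Coprime u q then ((0 : ℕ) : ℝ) / Nat.totient q else 0)) ^ 2 = 0 := by
      intro N _
      simp
    rw [Finset.sum_congr rfl this, Finset.sum_const_zero]
    have : 0 ≤ Real.log Z := by linarith
    positivity
  set X' : ℕ := 9 * Z / 10 with hX'
  have hX'1 : 10 * X' ≤ 9 * Z := by omega
  have hX'2 : 9 * Z ≤ 10 * X' + 9 := by omega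
  have hX'1r : 10 * (X' : ℝ) ≤ 9 * Z := by exact_mod_cast hX'1
  have hX'2r : 9 * (Z : ℝ) ≤ 10 * X' + 9 := by exact_mod_cast hX'2
  have hXs : √(Z : ℝ) * √(Z : ℝ) = Z := Real.mul_self_sqrt (by linarith)
  have hHr : (h : ℝ) ≤ Z / 1000 := by
    have : (K : ℝ) * 1000 * √Z ≤ √Z * √Z := mul_le_mul_of_nonneg_right f2 (Real.sqrt_nonneg _)
    rw [hXs] at this
    linarith
  set L := Real.log Z with hL
  set L' := Real.log (X' : ℝ) with hL'
  have hX'pos : (0 : ℝ) < X' := by linarith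
  have hZ1 : (1 : ℝ) ≤ Z := by linarith
  have hZ0 : (0 : ℝ) < Z := by linarith
  -- lower bound for H
  have hsq : √(Z : ℝ) = (Z : ℝ) ^ (1 / 2 : ℝ) := Real.sqrt_eq_rpow _
  have hLy : √(Z : ℝ) * L ^ (A + 4) ≤ H := by
    calc √(Z : ℝ) * L ^ (A + 4) ≤ (Z : ℝ) ^ (1 / 2 : ℝ) * (Z : ℝ) ^ (3 / 10 : ℝ) := by
          rw [hsq]; exact mul_le_mul_of_nonneg_left f3 (by positivity)
      _ = (Z : ℝ) ^ (4 / 5 : ℝ) := by rw [← Real.rpow_add hZ0]; norm_num
      _ ≤ (Z : ℝ) ^ (4 / 5 + ε) := Real.rpow_le_rpow_of_exponent_le hZ1 (by linarith)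
      _ ≤ H := hHlow
  have hL1 : 1 ≤ L := by linarith
  have hhHr : (h : ℝ) ≤ H := by
    have h5 : (K : ℝ) * √Z ≤ √Z * L ^ (A + 4) := by
      rw [mul_comm]
      apply mul_le_mul_of_nonneg_left _ (Real.sqrt_nonneg _)
      calc (K : ℝ) ≤ L := f7
        _ = L ^ 1 := (pow_one L).symm
        _ ≤ L ^ (A + 4) := pow_le_pow_right₀ hL1 (by omega)
    linarith
  have hhH : h ≤ H := by exact_mod_cast hhHr
  have hh1r : (1 : ℝ) ≤ h := by exact_mod_cast hh1
  have hH1r : (1 : ℝ) ≤ H := by linarith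
  have hHZ2r : 2 * (H : ℝ) ≤ Z := by exact_mod_cast hHZ2
  have hLL' : L ≤ 1 + L' := by
    rw [hL, hL', ← Real.log_exp 1, ← Real.log_mul (Real.exp_pos 1).ne' hX'pos.ne']
    apply Real.log_le_log (by linarith)
    have := Real.exp_one_gt_d9
    nlinarith
  have hL'L : L' ≤ L := Real.log_le_log hX'pos (by linarith)
  have hL'2 : L / 2 ≤ L' := by linarith
  have hqB' : (q : ℝ) ≤ L' ^ (B + 1) := by
    refine hqB.trans ?_
    calc L ^ B ≤ (2 * L') ^ B := pow_le_pow_left₀ (by linarith) (by linarith) _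
      _ = 2 ^ B * L' ^ B := by rw [mul_pow]
      _ ≤ L' * L' ^ B := by
          apply mul_le_mul_of_nonneg_right _ (by
            have : 0 ≤ L' := by linarith
            positivity)
          rw [pow_succ] at f6
          linarith
      _ = L' ^ (B + 1) := by ring
  have f3s : L ^ (A + 4) ≤ √(Z : ℝ) := by
    rw [hsq]
    exact f3.trans (Real.rpow_le_rpow_of_exponent_le hZ1 (by norm_num))
  have hsX' : √(Z : ℝ) ≤ 2 * √(X' : ℝ) := by
    have : 2 * √(X' : ℝ) = √(4 * X') := by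
      rw [Real.sqrt_mul (by norm_num), show (4 : ℝ) = 2 ^ 2 by norm_num, Real.sqrt_sq (by norm_num)]
    rw [this]
    apply Real.sqrt_le_sqrt
    linarith
  have hs1 : 1 ≤ √(X' : ℝ) := by rw [Real.one_le_sqrt]; linarith
  have hT1 : 1 ≤ √(X' : ℝ) * L' ^ (A + 2) := by
    have : 1 ≤ L' ^ (A + 2) := one_le_pow₀ (by linarith)
    nlinarith
  have hTX : √(X' : ℝ) * L' ^ (A + 2) ≤ X' := by
    have h3 : L' ^ (A + 2) ≤ L ^ (A + 2) := pow_le_pow_left₀ (by linarith) hL'L _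
    have h4 : L ^ (A + 2) * 4 ≤ L ^ (A + 4) := by
      have : L ^ (A + 4) = L ^ (A + 2) * L ^ 2 := by rw [← pow_add]
      rw [this]
      apply mul_le_mul_of_nonneg_left _ (by
        have : 0 ≤ L := by linarith
        positivity)
      nlinarith
    have h5 : L' ^ (A + 2) ≤ √(X' : ℝ) := by linarith
    calc √(X' : ℝ) * L' ^ (A + 2) ≤ √(X' : ℝ) * √(X' : ℝ) :=
          mul_le_mul_of_nonneg_left h5 (Real.sqrt_nonneg _)
      _ = X' := Real.mul_self_sqrt hX'pos.le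
  have hHn : h ≤ X' := by
    have : (h : ℝ) ≤ X' := by linarith
    exact_mod_cast this
  have h3n : 2 * Z + h ≤ 3 * X' := by
    have : 2 * (Z : ℝ) + h ≤ 3 * X' := by linarith
    exact_mod_cast this
  have hen : Real.exp (0.1 : ℝ) * 0.9 ≤ 1 := by
    have h3 : (1 : ℝ) - 0.1 ≤ Real.exp (-0.1) := Real.one_sub_le_exp_neg 0.1
    have h4 : Real.exp (0.1 : ℝ) * Real.exp (-0.1) = 1 := by rw [← Real.exp_add]; norm_num
    nlinarith [Real.exp_pos (0.1 : ℝ)]
  have hep : (2.4 : ℝ) ≤ Real.exp 0.9 := by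
    have h3 : (1 : ℝ) - 0.1 ≤ Real.exp (-0.1) := Real.one_sub_le_exp_neg 0.1
    have h4 : Real.exp (0.9 : ℝ) = Real.exp 1 * Real.exp (-0.1) := by rw [← Real.exp_add]; norm_num
    have h5 := Real.exp_one_gt_d9
    rw [h4]
    nlinarith
  have hlo : Real.exp 0.1 * (X' : ℝ) ≤ Z := by
    have h3 : Real.exp 0.1 * (X' : ℝ) ≤ Real.exp 0.1 * (0.9 * Z) :=
      mul_le_mul_of_nonneg_left (by linarith) (Real.exp_pos _).le
    nlinarith
  have hhi : 2 * (Z : ℝ) ≤ Real.exp 0.9 * X' := by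
    have h3 : 2.4 * (X' : ℝ) ≤ Real.exp 0.9 * X' := mul_le_mul_of_nonneg_right hep hX'pos.le
    linarith
  -- the width of the window
  set W : ℝ := Z / (2 * H) with hW
  have hW1 : 1 ≤ W := by
    rw [hW, le_div_iff₀ (by linarith)]
    linarith
  have hW2 : W ≤ (X' : ℝ) ^ (1 / 5 - ε / 2) := by
    have hX'4 : (Z : ℝ) / 4 ≤ X' := by linarith
    have hZ4 : (1 : ℝ) ≤ (Z : ℝ) / 4 := by linarith
    have h5 : W ≤ (Z : ℝ) ^ (1 / 5 - ε) / 2 := by
      rw [hW, div_le_iff₀ (by linarith)]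
      have h6 : (Z : ℝ) = (Z : ℝ) ^ (1 / 5 - ε) * (Z : ℝ) ^ (4 / 5 + ε) := by
        rw [← Real.rpow_add hZ0]
        have : (1 / 5 - ε + (4 / 5 + ε) : ℝ) = 1 := by ring
        rw [this, Real.rpow_one]
      have h7 : (Z : ℝ) ^ (1 / 5 - ε) * (Z : ℝ) ^ (4 / 5 + ε) ≤ (Z : ℝ) ^ (1 / 5 - ε) * H :=
        mul_le_mul_of_nonneg_left hHlow (by positivity)
      linarith
    have h6 : (Z : ℝ) ^ (1 / 5 - ε) / 2 ≤ ((Z : ℝ) / 4) ^ (1 / 5 - ε) := by
      rw [Real.div_rpow (by linarith) (by norm_num)]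
      apply div_le_div_of_nonneg_left (by positivity) (by positivity)
      calc (4 : ℝ) ^ (1 / 5 - ε) ≤ (4 : ℝ) ^ (1 / 2 : ℝ) :=
            Real.rpow_le_rpow_of_exponent_le (by norm_num) (by linarith)
        _ = 2 := by
            rw [← Real.sqrt_eq_rpow, show (4 : ℝ) = 2 ^ 2 by norm_num,
              Real.sqrt_sq (by norm_num)]
    have h7 : ((Z : ℝ) / 4) ^ (1 / 5 - ε) ≤ ((Z : ℝ) / 4) ^ (1 / 5 - ε / 2) :=
      Real.rpow_le_rpow_of_exponent_le hZ4 (by linarith)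
    have h8 : ((Z : ℝ) / 4) ^ (1 / 5 - ε / 2) ≤ (X' : ℝ) ^ (1 / 5 - ε / 2) :=
      Real.rpow_le_rpow (by linarith) hX'4 (by linarith)
    linarith
  have htow := hX1 X' (by omega) q u W hq hqB' hW1 hW2
  have hmain := total w hw M hM0 hM' C hsha Ct hth hth2 hwpl Z H X' q u h
    (√(X' : ℝ) * L' ^ (A + 2)) W (1 / L' ^ (A + 1)) (by omega) (by omega) hh1 (by omega) hHn
    (by omega) h3n hhH (by omega) hlo hhi hT1 hTX hW1 hW htow
  refine hmain.trans ?_
  have hl3 : Real.log (3 * (Z : ℝ)) ≤ L + 2 := by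
    rw [Real.log_mul (by norm_num) (by linarith)]
    have : Real.log 3 ≤ 2 := by
      rw [Real.log_le_iff_le_exp (by norm_num)]
      have h5 := Real.add_one_le_exp (2 : ℝ)
      linarith
    linarith
  have hl3' : 0 ≤ Real.log (3 * (Z : ℝ)) := Real.log_nonneg (by linarith)
  have hX4r : (Z : ℝ) / 4 ≤ X' := by linarith
  have hH0r : (0 : ℝ) ≤ h := Nat.cast_nonneg h
  have hGr0 : 0 ≤ Real.log (3 * (Z : ℝ)) + 1 := by linarith
  have hGr : Real.log (3 * (Z : ℝ)) + 1 ≤ 2 * L := by linarith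
  have hGr' : Real.log (3 * (Z : ℝ)) ≤ 2 * L := by linarith
  rw [hQ] at f5
  clear_value L L' Q W
  exact fin_est A K C M Ct L L' Z X' H h (Real.log (3 * Z) + 1) (√(X' : ℝ) * L' ^ (A + 2))
    (1 / L' ^ (A + 1)) hC hM0 hCt f4 hZ1 f3s hLy hL'2 hX4r hH0r hhK
    hGr0 hGr rfl rfl hGr' hl3' f5

end Pool.Agent.Helper45.GW
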